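import Pool.Agent.Q5.SQ.Asy

/-!
# MP_d616f8_nt: squarefree pairs and coprime pairs with equal sum of divisors

Q1 asks whether the number `h'(x)` of pairs `1 ≤ a < b < x` of squarefree numbers with
`σ(a) = σ(b)` is at least `x ^ (2 - o(1))`. It is shown that this is equivalent to the same
statement for the coprime pairs, for all pairs, for the pairs which are coprime and squarefree, and
to the existence of one value of `σ` taken by `x ^ (1 - o(1))` squarefree numbers below `x`. The
implications are effective.
-/

set_option autoImplicit false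

namespace Pool.Agent.Results.MP_d616f8_nt.SquarefreeIffCoprime

open Pool.Agent.Q5.SQ Nb4cc4d7a

/-- (1) and (2): explicit inequalities, for all `x` and all `B ≥ 1`; (3) the equivalence of the five
statements, the first of which is Q1 and the second is the statement on coprime pairs. -/
theorem result :
    (∀ x B : ℕ, 1 ≤ B →
      (hAll x : ℝ) ≤ 2 * (x : ℝ) ^ 2 / B + (B : ℝ) ^ 6 * (2 * hSquarefree x + x)) ∧
    (∀ x B : ℕ, 1 ≤ B → (hSquarefree x : ℝ) ≤ (x : ℝ) ^ 2 / B + B * hBoth x) ∧
    List.TFAE [Full hSquarefree, Full hCoprime, Full hAll, Full hBoth, Popular] :=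
  ⟨all_le, sq_le, main⟩

end Pool.Agent.Results.MP_d616f8_nt.SquarefreeIffCoprime
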